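import Pool.Agent.MP_c69980_ag.H43.Spec6

/-!
The points of a smooth curve are places of its function field.
-/

set_option autoImplicit false

namespace Pool.Agent.MP_c69980_ag.H43

open MvPolynomial H60 Pool.Agent.MP_f3836a_nt.PK

variable {L : Type} [Field L] [Algebra ℂ L]

lemma cv1_ff (h : Algebra.trdeg ℂ L = 1) {T : Set L} (hT : T.Finite)
    (hg : IntermediateField.adjoin ℂ T = ⊤) : IsFF ℂ L := by
  obtain ⟨t, ht⟩ := (trdeg_ne_zero_iff.1 (by rw [h]; exact one_ne_zero) :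
    Algebra.Transcendental ℂ L).transcendental
  have h1 : AlgebraicIndependent ℂ (fun _ : Unit => t) :=
    algebraicIndependent_unique_type_iff.2 ht
  have h2 := (h1.isTranscendenceBasis_of_trdeg_le (by simp [h]) (by simp [h])).isAlgebraic_field
  rw [Set.range_const] at h2
  refine ⟨t, ht, ?_⟩
  have : Finite T := hT
  have h3 := IntermediateField.finiteDimensional_adjoin (K := IntermediateField.adjoin ℂ {t})
    (S := T) fun z _ => (h2.1 z).isIntegral
  rw [IntermediateField.adjoin_eq_top_of_adjoin_eq_top ℂ hg] at h3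
  exact IntermediateField.topEquiv.toLinearEquiv.finiteDimensional

lemma cv1_dim (h : FFd L) (R : Subalgebra ℂ L) : Ring.KrullDimLE 1 R := by
  refine Ring.krullDimLE_one_iff_of_isPrime_bot.2 fun p hp hp' => ?_
  let f : Localization.AtPrime p →+* L := IsLocalization.lift (M := p.primeCompl)
    (g := R.val.toRingHom) fun s => IsUnit.mk0 _ fun e => s.2 (by
      rw [show s.1 = 0 from Subtype.ext e]; exact p.zero_mem)
  have hf : ∀ a : R, f (algebraMap _ _ a) = a := fun a => IsLocalization.lift_eq _ _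
  obtain ⟨V, hV, hl⟩ := IsLocalRing.exists_factor_valuationRing f
  have h1 : ∀ a : R, (a : L) ∈ V := fun a => hf a ▸ hV (algebraMap _ _ a)
  have h2 : ∀ a : R, (a : L) ∈ V.nonunits ↔ a ∈ p := fun a => by
    rw [← not_iff_not]
    refine Iff.trans ?_ (IsLocalization.AtPrime.isUnit_to_map_iff (Localization.AtPrime p) p a)
    rw [← isUnit_map_iff (f.codRestrict V.toSubring hV), ← hf a]
    exact (V.coe_mem_nonunits_iff (a := ⟨_, hV _⟩)).not.trans not_not
  have h3 : V ≠ ⊤ := fun e => hp (eq_bot_iff.2 fun a ha => by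
    have := V.mem_nonunits_iff_or.1 ((h2 a).2 ha)
    exact Subtype.ext (this.resolve_right fun q => q (e ▸ trivial)))
  let P : Pl L := ⟨V, h3, fun c => h1 (algebraMap ℂ R c)⟩
  refine Ideal.isMaximal_iff.2 ⟨(Ideal.ne_top_iff_one p).1 hp'.ne_top, fun J x hJ hx hxJ => ?_⟩
  have h4 : x - algebraMap ℂ R (P.val x) ∈ p :=
    (h2 _).1 ((h.a.zero P _).1 ((h.a.val P x (h1 x) _).2 rfl))
  have h5 : P.val x ≠ 0 := fun e => hx (by simpa [e] using h4)
  have h6 := J.mul_mem_left (algebraMap ℂ R (P.val x)⁻¹) (J.sub_mem hxJ (hJ h4))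
  rwa [sub_sub_cancel, ← map_mul, inv_mul_cancel₀ h5, map_one] at h6

lemma cv1_vr (h : FFd L) (R : Subalgebra ℂ L) [hR : IsRegularLocalRing R] : ValuationRing R := by
  have h1 := (IsRegularLocalRing.iff_finrank_cotangentSpace R).1 hR
  have h2 := Ring.krullDimLE_iff.1 (cv1_dim h R)
  rw [← h1] at h2
  exact ((tfae_of_isNoetherianRing_of_isLocalRing_of_isDomain R).out 1 5).2 (by exact_mod_cast h2)

lemma cv1_le (h : FFd L) {P Q : Pl L} (H : P.V ≤ Q.V) : P = Q := by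
  have := h.a.dvr P
  exact Place.ext (ValuationSubring.eq_of_le_of_ne_top _ H Q.ne)

lemma cv1_uni (h : FFd L) {N : ℕ} {P : Pl L} {y : Fin N → L} {x x' : PS N} (a : Red P y x)
    (b : Red P y x') : x = x' := by
  obtain ⟨c, c1, c2, rfl⟩ := a
  obtain ⟨c', d1, d2, rfl⟩ := b
  obtain ⟨i, hi⟩ := Function.ne_iff.1 c2
  obtain ⟨χ, e, -⟩ := h.a.hom P
  have h1 : c * y i ∉ P.V.nonunits := fun q =>
    hi ((h.a.val P _ (c1 i) 0).1 ((h.a.zero P _).2 (by simpa using q)))
  rw [ValuationSubring.mem_nonunits_iff_or, not_or, not_not] at h1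
  have h2 : c' * y i * (c * y i)⁻¹ ∈ P.V := P.V.mul_mem _ _ (d1 i) h1.2
  refine ((Projectivization.mk_eq_mk_iff' _ _ _ _ _).2
    ⟨P.val (c' * y i * (c * y i)⁻¹), _root_.funext fun l => ?_⟩).symm
  have h3 := map_mul χ ⟨_, h2⟩ ⟨_, c1 l⟩
  rw [e, e, e] at h3
  refine h3.symm.trans (congrArg P.val ?_)
  have := left_ne_zero_of_mul h1.1
  have := right_ne_zero_of_mul h1.1
  simp only [MulMemClass.coe_mul]
  field_simp

section Loc

variable {r : ℕ} {v : Fin r → L} {y : Fin r → ℂ}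

lemma cv1_nu (hy : On v y) {x : L} (hx : Reg v y x) :
    x - algebraMap ℂ L (vl v x y) = 0 ∨ ¬ Reg v y (x - algebraMap ℂ L (vl v x y))⁻¹ := by
  by_contra hn
  rw [not_or, not_not] at hn
  have h1 := vl_add hy hx (vl_const hy (-vl v x y)).1
  rw [(vl_const hy _).2, map_neg, ← sub_eq_add_neg, add_neg_cancel] at h1
  have h2 := (vl_mul hy h1.1 hn.2).2
  rw [mul_inv_cancel₀ hn.1, h1.2, zero_mul, ← map_one (algebraMap ℂ L), (vl_const hy _).2] at h2
  exact one_ne_zero h2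

lemma cv1_val (h : FFd L) (hy : On v y) {P : Pl L} (hP : ∀ x, x ∈ P.V ↔ Reg v y x) {x : L}
    (hx : Reg v y x) : P.val x = vl v x y :=
  (h.a.val P x ((hP x).2 hx) _).1 ((h.a.zero P _).2 (P.V.mem_nonunits_iff_or.2
    ((cv1_nu hy hx).imp_right fun q e => q ((hP _).1 e))))

lemma cv1_red (h : FFd L) (hy : On v y) {P : Pl L} (hP : ∀ x, x ∈ P.V ↔ Reg v y x) {N d : ℕ}
    {F : Fin N → PR r} {B : PR r} (hF : ∀ j, (F j).IsHomogeneous d) (hB : B.IsHomogeneous d)
    (h0 : eval y B ≠ 0) (hn : (fun j => eval y (F j)) ≠ 0) {z : Fin N → L} {l : L}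
    (hz : ∀ j, l * z j = aeval v (F j) / aeval v B) : Red P z (Projectivization.mk ℂ _ hn) := by
  have h1 : ∀ j, Reg v y (l * z j) := fun j => ⟨_, _, d, hF j, hB, h0, hz j⟩
  have h2 : (fun j => eval y (F j)) = eval y B • fun j => P.val (l * z j) := funext fun j => by
    rw [Pi.smul_apply, cv1_val h hy hP (h1 j), hz, vl_eq hy (hF j) hB h0, smul_eq_mul,
      mul_div_cancel₀ _ h0]
  exact ⟨l, fun j => (hP _).2 (h1 j), fun q => hn (by rw [h2, q, smul_zero]),
    (Projectivization.mk_eq_mk_iff' _ _ _ _ _).2 ⟨_, h2.symm⟩⟩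

lemma cv1_den {N : ℕ} {u : Fin N → L} (hy : On v y) (hu : ∀ j, Reg v y (u j)) :
    ∃ (F : Fin N → PR r) (B : PR r) (d : ℕ), (∀ j, (F j).IsHomogeneous d) ∧ B.IsHomogeneous d ∧
      eval y B ≠ 0 ∧ ∀ j, u j = aeval v (F j) / aeval v B := by
  choose A B d hA hB h0 e using hu
  refine ⟨fun j => A j * ∏ k ∈ Finset.univ.erase j, B k, ∏ k, B k, ∑ k, d k, fun j => ?_,
    IsHomogeneous.prod _ _ _ fun k _ => hB k, ?_, fun j => ?_⟩
  · rw [← Finset.add_sum_erase _ d (Finset.mem_univ j)]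
    exact (hA j).mul (IsHomogeneous.prod _ _ _ fun k _ => hB k)
  · rw [map_prod]
    exact Finset.prod_ne_zero_iff.2 fun k _ => h0 k
  · rw [← Finset.mul_prod_erase _ B (Finset.mem_univ j), map_mul, map_mul, mul_div_mul_right, e]
    rw [map_prod]
    exact Finset.prod_ne_zero_iff.2 fun k _ q => h0 k (hy _ _ (hB k) q)

lemma cv1_ch (hy : On v y) (h0 : y ≠ 0) : ∃ j, y j ≠ 0 ∧ v j ≠ 0 ∧ ∀ (A : PR r) (d : ℕ),
    A.IsHomogeneous d → Reg v y (aeval v A / v j ^ d) := by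
  obtain ⟨j, hj⟩ := Function.ne_iff.1 h0
  refine ⟨j, hj, fun q => hj (by simpa using hy (X j) 1 (isHomogeneous_X _ _) (by simpa)),
    fun A d hA => ⟨A, X j ^ d, d, hA, isHomogeneous_X_pow j d, ?_, by simp⟩⟩
  rw [map_pow, eval_X]
  exact pow_ne_zero _ hj

end Loc

variable {r : ℕ} {C : Set (PS r)} {v : Fin r → L}

lemma cv1_on (hz : GenPt C v) (c : C) : On v c.1.rep := fun G d hG q => (hz.1 G d hG).1 q _ c.2

lemma cv1_pl (h : FFd L) (hz : GenPt C v) (c : C) (hc : IsRegularLocalRing (locRing v c.1)) :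
    ∃ P : Pl L, ∀ x, x ∈ P.V ↔ Reg v c.1.rep x := by
  have hy := cv1_on hz c
  have hm : ∀ x, x ∈ locRing v c.1 ↔ Reg v c.1.rep x := mem_locRing hy
  have hv := cv1_vr h (locRing v c.1)
  obtain ⟨j, -, j0, hj⟩ := cv1_ch hy c.1.rep_nonzero
  let V : ValuationSubring L := ⟨(locRing v c.1).toSubring, fun x => by
    obtain ⟨A, B, d, hA, hB, h0, rfl⟩ := quot hz x
    obtain ⟨w, hw⟩ := hv.cond' (⟨_, (hm _).2 (hj A d hA)⟩ : locRing v c.1)
      ⟨_, (hm _).2 (hj B d hB)⟩
    have p0 := pow_ne_zero d j0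
    by_cases hA0 : aeval v A = 0
    · exact Or.inl (by rw [hA0, zero_div]; exact (locRing v c.1).zero_mem)
    rcases hw with e | e <;> have e' := congrArg Subtype.val e <;>
      simp only [MulMemClass.coe_mul] at e'
    · refine Or.inr (Eq.mpr (congrArg (· ∈ locRing v c.1) ?_) w.2)
      field_simp at e' ⊢
      exact e'.symm
    · refine Or.inl (Eq.mpr (congrArg (· ∈ locRing v c.1) ?_) w.2)
      field_simp at e' ⊢
      exact e'.symm⟩
  refine ⟨⟨V, fun e => ?_, fun a => (locRing v c.1).algebraMap_mem a⟩, hm⟩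
  obtain ⟨t, ht, -⟩ := h.ff
  have h1 : ∀ x, Reg v c.1.rep x := fun x => (hm x).1 (show x ∈ V from e ▸ trivial)
  refine ht ?_
  rw [sub_eq_zero.1 ((cv1_nu hy (h1 t)).resolve_right fun q => q (h1 _))]
  exact isAlgebraic_algebraMap _

theorem sCv1 (_h : SHtBd) : SCv1 := by
  intro r C L _ _ v H
  have hz := H.gen
  have h : FFd L := ffd_of (cv1_ff H.deg (rat_fin v) hz.2)
  choose pl hp using fun c : C => cv1_pl h hz c (H.reg _ c.2)
  have hm : ∀ (c : C) x, x ∈ locRing v c.1 ↔ Reg v c.1.rep x := fun c => mem_locRing (cv1_on hz c)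
  obtain ⟨c₀, hc₀⟩ := H.var.1.1
  have nz : ∀ (A : PR r) (d : ℕ) (c : C), A.IsHomogeneous d → eval c.1.rep A ≠ 0 →
      aeval v A ≠ 0 := fun A d c hA q e => q (cv1_on hz c A d hA e)
  refine ⟨pl, h, fun c c' e => ?_, ?_, fun c x => (hp c x).trans (hm c x).symm, fun N f => ?_⟩
  · have key : ∀ c : C, Red (pl c) v c.1 := fun c => by
      obtain ⟨j, j1, j0, -⟩ := cv1_ch (cv1_on hz c) c.1.rep_nonzero
      have := cv1_red h (cv1_on hz c) (hp c) (F := X) (B := X j) (isHomogeneous_X ℂ)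
        (isHomogeneous_X ℂ j) (by simpa using j1) (by simpa using c.1.rep_nonzero) (z := v)
        (l := (v j)⁻¹) fun i => by simp [div_eq_inv_mul]
      simpa only [eval_X, Projectivization.mk_rep] using this
    exact Subtype.ext (cv1_uni h (key c) (e ▸ key c'))
  · obtain ⟨s, s1, s2⟩ := fin_forms H.var
    obtain ⟨A, hA, A0⟩ := s2 c₀ hc₀
    obtain ⟨⟨d, hd⟩, A1⟩ := s1 A hA
    have A2 := nz A d ⟨c₀, hc₀⟩ hd A0
    refine (Set.finite_iUnion fun j => h.b.fin (aeval v A / v j ^ d)).subset fun P hP => ?_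
    by_contra hn
    simp only [Set.mem_iUnion, Set.mem_ofPred_eq, not_exists, not_not] at hn
    obtain ⟨j, -, j0, -⟩ := cv1_ch (cv1_on hz ⟨c₀, hc₀⟩) c₀.rep_nonzero
    obtain ⟨Z, ⟨x, hx⟩, Z1, Z2⟩ := centre2 (AlgHom.id ℂ L) P.V P.const v fun q => j0 (congrFun q j)
    obtain ⟨i, -, i0, hi⟩ := cv1_ch (Z1 x hx).1 x.rep_nonzero
    have u0 : aeval v A / v i ^ d ≠ 0 := div_ne_zero A2 (pow_ne_zero _ i0)
    obtain ⟨x2, a1, a2, a3⟩ := Z2 x hx r (fun k => v k / v i)
      (fun k => (mem_locRing (Z1 x hx).1 _).2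
        (show Reg v x.rep _ by simpa using hi (X k) 1 (isHomogeneous_X _ _)))
      (aeval v A / v i ^ d) ((mem_locRing (Z1 x hx).1 _).2 (hi A d hd)) (by
        refine le_antisymm ((P.V.valuation_le_one_iff _).2 ((h.a.mem P _ u0).2 (hn i).ge))
          (not_lt.1 fun q => ?_)
        rcases (h.a.zero P _).2 (P.V.mem_nonunits_iff.2 q) with q | q
        · exact u0 q
        · exact q.ne' (hn i))
    have a4 := eval_ne_of_dom (Z1 x2 a1).1 (locRing v x2) (fun _ _ q => q) hd A2 i0 a2 a3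
    have a5 : x2 ∈ C := A1 x2 (mem_zcl.2 fun F e hF q =>
      (Z1 x2 a1).1 F e hF ((hz.1 F e hF).2 q)) a4
    exact hP ⟨⟨x2, a5⟩, cv1_le h fun u hu => (Z1 x2 a1).2 u ((hm ⟨x2, a5⟩ u).2 ((hp _ u).1 hu))⟩
  · constructor
    · intro hf
      obtain ⟨d, e, g, F, hg, hF, g0, hc⟩ := hf ⟨c₀, hc₀⟩
      obtain ⟨i, hi⟩ := Function.ne_iff.1 (hc _ g0).1
      refine ⟨fun j => aeval v (F j), fun c => ?_⟩
      obtain ⟨d', e', g', F', hg', hF', g0', hc'⟩ := hf c
      obtain ⟨n0, hn⟩ := hc' c g0'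
      obtain ⟨k, k1, k0, -⟩ := cv1_ch (cv1_on hz c) c.1.rep_nonzero
      have cr : ∀ j, aeval v (F' i) * aeval v (F j) = aeval v (F' j) * aeval v (F i) := fun j => by
        have := (hz.1 (g * g' * (F' i * F j - F' j * F i)) _ ((hg.mul hg').mul
          (((hF' i).mul (hF j)).sub ((hF' j).mul (hF i))))).2 fun Q hQ => by
            simp only [map_mul, map_sub]
            by_cases q1 : eval Q.rep g = 0
            · rw [q1, zero_mul, zero_mul]
            by_cases q2 : eval Q.rep g' = 0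
            · rw [q2, mul_zero, zero_mul]
            obtain ⟨b1, b2⟩ := hc ⟨Q, hQ⟩ q1
            obtain ⟨b3, b4⟩ := hc' ⟨Q, hQ⟩ q2
            obtain ⟨a, ha⟩ := (Projectivization.mk_eq_mk_iff' _ _ _ _ _).1 (b2.symm.trans b4)
            have b5 := congrFun ha i
            have b6 := congrFun ha j
            simp only [Pi.smul_apply, smul_eq_mul] at b5 b6
            rw [← b5, ← b6]
            ring
        simp only [map_mul, map_sub] at this
        exact sub_eq_zero.1 ((mul_eq_zero.1 this).resolve_left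
          (mul_ne_zero (nz g e _ hg g0) (nz g' e' _ hg' g0')))
      rw [hn]
      refine cv1_red h (cv1_on hz c) (hp c) hF' (isHomogeneous_X_pow k d') (by simp [k1]) n0
        (l := aeval v (F' i) / (aeval v (F i) * v k ^ d')) fun j => ?_
      have := nz (F i) d _ (hF i) hi
      rw [map_pow, aeval_X, div_mul_eq_mul_div, cr j, mul_comm (aeval v (F i)),
        mul_div_mul_right _ _ this]
    · rintro ⟨y, hy⟩ c
      obtain ⟨l, l1, l2, -⟩ := hy c
      obtain ⟨F, B, d, hF, hB, B0, e⟩ := cv1_den (cv1_on hz c) fun j => (hp c _).1 (l1 j)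
      obtain ⟨i, hi⟩ := Function.ne_iff.1 l2
      have h1 : eval c.1.rep (F i) ≠ 0 := fun q => hi (by
        rw [cv1_val h (cv1_on hz c) (hp c) ((hp c _).1 (l1 i)), e,
          vl_eq (cv1_on hz c) (hF i) hB B0, q, zero_div, Pi.zero_apply])
      refine ⟨d, d + d, B * F i, F, hB.mul (hF i), hF, by simp [B0, h1], fun Q hQ => ?_⟩
      rw [map_mul] at hQ
      have n0 : (fun j => eval Q.1.rep (F j)) ≠ 0 :=
        fun q => right_ne_zero_of_mul hQ (congrFun q i)
      exact ⟨n0, cv1_uni h (hy Q)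
        (cv1_red h (cv1_on hz Q) (hp Q) hF hB (left_ne_zero_of_mul hQ) n0 e)⟩

end Pool.Agent.MP_c69980_ag.H43
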