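import Pool.Agent.MP_c69980_ag.H43.Spec10

/-!
Local rings and points of a normalisation in a chart.
-/

set_option autoImplicit false

namespace Pool.Agent.MP_c69980_ag.H43

open MvPolynomial H60

lemma locA_xi {ι : Type} {F : Subfield ℂ} {x y : ι → ℂ} (h : Sp F x y) :
    ∃ ξ : RA F x →ₐ[F] ℂ, ∀ i, ξ ⟨x i, gen_mem _ i⟩ = y i := by
  let ψ : MvPolynomial ι F →ₐ[F] RA F x := aeval fun i => ⟨x i, gen_mem _ i⟩
  have e : ∀ P, (ψ P : ℂ) = aeval x P := fun P => comp_aeval_apply _ (RA F x).val P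
  have hs : Function.Surjective ψ := fun u => by
    obtain ⟨P, hP, h1⟩ := mem_RA.1 u.2
    obtain ⟨P', rfl⟩ := cf_iff.1 hP
    exact ⟨P', Subtype.ext (by rw [e, ← h1, eval_map_sub])⟩
  have hk : RingHom.ker ψ.toRingHom ≤ RingHom.ker (aeval (R := F) y).toRingHom := fun P hP => by
    have := h _ (cf_map P) (by rw [eval_map_sub, ← e, show ψ P = 0 from hP]; rfl)
    rwa [eval_map_sub] at this
  refine ⟨ψ.liftOfSurjective hs (aeval y) hk, fun i => ?_⟩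
  rw [← aeval_X (R := F) y i, ← ψ.liftOfSurjective_apply hs _ hk]
  simp [ψ]

section Abs

variable {F L : Subfield ℂ} {R O : Subalgebra F ℂ} {ξ : R →ₐ[F] ℂ}

lemma locA_ne {b : R} (hb : ξ b ≠ 0) : (b : ℂ) ≠ 0 := fun e =>
  hb (by rw [show b = 0 from Subtype.ext e, map_zero])

lemma locA_int (hL : ∀ r : R, (r : ℂ) ∈ L) (hO : ∀ x, x ∈ O ↔ ∃ a b : R, ξ b ≠ 0 ∧ b * x = a)
    (x : ℂ) : x ∈ ICs O L ↔ ∃ b : R, ξ b ≠ 0 ∧ b * x ∈ ICs R L := by
  have le : R ≤ O := fun r hr => (hO r).2 ⟨⟨r, hr⟩, 1, by simp, by simp⟩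
  have hi : ∀ b : R, ξ b ≠ 0 → (b : ℂ)⁻¹ ∈ O := fun b hb =>
    (hO _).2 ⟨1, b, hb, mul_inv_cancel₀ (locA_ne hb)⟩
  let _ : Algebra R O := (Subalgebra.inclusion le).toRingHom.toAlgebra
  have : IsScalarTower R O ℂ := IsScalarTower.of_algebraMap_eq fun _ => rfl
  constructor
  · rintro ⟨h1, h2⟩
    have : IsLocalization ((nonZeroDivisors ℂ).comap (ξ : R →* ℂ)) O := by
      refine (isLocalization_iff _ _).2 ⟨fun b => ?_, fun z => ?_, fun {a b} e => ⟨1, ?_⟩⟩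
      · have hb : ξ b ≠ 0 := mem_nonZeroDivisors_iff_ne_zero.1 b.2
        exact IsUnit.of_mul_eq_one ⟨_, hi b hb⟩
          (Subtype.ext (mul_inv_cancel₀ (locA_ne (b := b.1) hb)))
      · obtain ⟨a, b, hb, e⟩ := (hO z).1 z.2
        exact ⟨(a, ⟨b, mem_nonZeroDivisors_iff_ne_zero.2 hb⟩),
          Subtype.ext ((mul_comm _ _).trans e)⟩
      · rw [show a = b from Subtype.ext (congrArg (fun u : O => (u : ℂ)) e)]
    obtain ⟨m, hm⟩ := IsIntegral.exists_multiple_integral_of_isLocalization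
      ((nonZeroDivisors ℂ).comap (ξ : R →* ℂ)) x h2
    exact ⟨m, mem_nonZeroDivisors_iff_ne_zero.1 m.2, L.mul_mem (hL _) h1, hm⟩
  · rintro ⟨b, hb, h1, h2⟩
    rw [← inv_mul_cancel_left₀ (locA_ne hb) x]
    exact ⟨L.mul_mem (L.inv_mem (hL b)) h1,
      (isIntegral_algebraMap (x := (⟨_, hi b hb⟩ : O))).mul h2.tower_top⟩

lemma locA_chi (hO : ∀ x, x ∈ ICs O L ↔ ∃ b : R, ξ b ≠ 0 ∧ b * x ∈ ICs R L) {θ τ : ℂ}
    {P : Polynomial R} {b : R} (h : EtQ R L θ P b) (hb : ξ b ≠ 0)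
    (hτ : (P.map (ξ : R →+* ℂ)).IsRoot τ) : ∃ χ : ℂ → ℂ, (∀ x ∉ ICs O L, χ x = 0) ∧
      (∀ x ∈ ICs O L, ∀ x' ∈ ICs O L, χ (x + x') = χ x + χ x' ∧ χ (x * x') = χ x * χ x') ∧
      χ θ = τ ∧ ∀ x ∈ ICs O L, ∀ a c : R, ξ c ≠ 0 → c * x = a → ξ c * χ x = ξ a := by
  classical
  let φ : Polynomial R →+* ℂ := Polynomial.eval₂RingHom (ξ : R →+* ℂ) τ
  have φC : ∀ c, φ (Polynomial.C c) = ξ c := fun c => Polynomial.eval₂_C _ _
  have φP : φ P = 0 := (Polynomial.eval_map _ _).symm.trans hτ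
  have φs : ∀ p q, φ (p - q) = φ p - φ q := fun p q => Polynomial.eval₂_sub _
  have aC : ∀ c : R, Polynomial.aeval θ (Polynomial.C c) = (c : ℂ) := fun c => Polynomial.aeval_C _ _
  let Rl : ℂ → ℂ → Prop := fun x v => ∃ (c : R) (Q : Polynomial R), ξ c ≠ 0 ∧
    c * x = Polynomial.aeval θ Q ∧ ξ c * v = φ Q
  have uni : ∀ x v v', Rl x v → Rl x v' → v = v' := by
    rintro x v v' ⟨c, Q, a1, a2, a3⟩ ⟨c', Q', b1, b2, b3⟩
    obtain ⟨S, hS⟩ := h.dvd (Polynomial.C c' * Q - Polynomial.C c * Q') (by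
      rw [Polynomial.aeval_sub, map_mul, map_mul, aC, aC, ← a2, ← b2]; ring)
    have := congrArg φ hS
    rw [φs, map_mul, map_mul, map_mul, φP, φC, φC, ← a3, ← b3] at this
    exact mul_left_cancel₀ (mul_ne_zero a1 b1) (by linear_combination this)
  have ex : ∀ x ∈ ICs O L, ∃ v, Rl x v := fun x hx => by
    obtain ⟨c, c1, c2⟩ := (hO x).1 hx
    obtain ⟨Q, hQ⟩ := h.gen _ c2
    have : ξ (b * c) ≠ 0 := by rw [map_mul]; exact mul_ne_zero hb c1
    exact ⟨φ Q / ξ (b * c), b * c, Q, this, by rw [← hQ, MulMemClass.coe_mul, mul_assoc],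
      mul_div_cancel₀ _ this⟩
  let χ : ℂ → ℂ := fun x => if hx : x ∈ ICs O L then (ex x hx).choose else 0
  have hχ : ∀ x ∈ ICs O L, Rl x (χ x) := fun x hx => by
    simp only [χ, dif_pos hx]
    exact (ex x hx).choose_spec
  refine ⟨χ, fun x hx => dif_neg hx, fun x hx x' hx' => ?_, uni θ _ _ (hχ θ ((hO θ).2
    ⟨1, by simp, by simpa using h.mem⟩)) ⟨1, Polynomial.X, by simp, by simp, by simp [φ]⟩,
    fun x hx a c hc e => ?_⟩
  · obtain ⟨c, Q, a1, a2, a3⟩ := hχ x hx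
    obtain ⟨c', Q', b1, b2, b3⟩ := hχ x' hx'
    have n : ξ (c * c') ≠ 0 := by rw [map_mul]; exact mul_ne_zero a1 b1
    refine ⟨uni _ _ _ (hχ _ ⟨L.add_mem hx.1 hx'.1, hx.2.add hx'.2⟩)
      ⟨c * c', Polynomial.C c' * Q + Polynomial.C c * Q', n, ?_, ?_⟩,
      uni _ _ _ (hχ _ ⟨L.mul_mem hx.1 hx'.1, hx.2.mul hx'.2⟩) ⟨c * c', Q * Q', n, ?_, ?_⟩⟩
    · rw [map_add, map_mul, map_mul, aC, aC, ← a2, ← b2, MulMemClass.coe_mul]; ring
    · rw [map_add, map_mul, map_mul, map_mul, φC, φC, ← a3, ← b3]; ring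
    · rw [map_mul, ← a2, ← b2, MulMemClass.coe_mul]; ring
    · rw [map_mul, map_mul, ← a3, ← b3]; ring
  · rw [uni _ _ _ (hχ x hx) ⟨c, Polynomial.C a, hc, e.trans (aC a).symm,
      (mul_div_cancel₀ _ hc).trans (φC a).symm⟩, mul_div_cancel₀ _ hc]

end Abs

theorem sLocA (h : SHom) : SLocA := by
  intro t M w F L y₀ y β hL hy hs
  have h0 : Ch w β y₀ := fun o => ⟨(hy o).1, fun e => (hy o).2 (by
    simpa using hs (X (β o)) 1 (isHomogeneous_X _ _) (cf_X _) (by simpa))⟩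
  have hh : ∀ P : CP M t, Cf F P → ∃ (H B : PR M) (d : ℕ), H.IsHomogeneous d ∧ B.IsHomogeneous d ∧
      Cf F H ∧ Cf F B ∧ ∀ u : Fin M → ℂ, Ch w β u →
        eval u B ≠ 0 ∧ eval u H = eval u B * eval (co β u) P := fun P hP => by
    obtain ⟨H, h1, h2, h3⟩ := h M (CI M t) Prod.fst (fun x => β x.2) P _ le_rfl
    refine ⟨H, (∏ x : CI M t, X (β x.2)) ^ P.totalDegree, _, h1, ?_, h2 F hP,
      (Cf.prod _ fun _ _ => cf_X _).pow _, fun u hu => ?_⟩
    · simpa [mul_comm] using (IsHomogeneous.prod Finset.univ _ (fun _ => 1)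
        fun (x : CI M t) _ => isHomogeneous_X ℂ (β x.2)).pow P.totalDegree
    · simp only [map_pow, map_prod, eval_X]
      exact ⟨pow_ne_zero _ (Finset.prod_ne_zero_iff.2 fun x _ => (hu x.2).2),
        h3 ℂ u fun x => (hu x.2).2⟩
  obtain ⟨ξ, hξ⟩ := locA_xi (x := co β y₀) (y := co β y) (F := F) fun P hP e => by
    obtain ⟨H, B, d, a1, -, a2, -, a3⟩ := hh P hP
    have := hs H d a1 a2 (by rw [(a3 y₀ h0).2, e, mul_zero])
    rw [(a3 y hy).2] at this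
    exact (mul_eq_zero.1 this).resolve_left (a3 y hy).1
  have xe : ∀ (P : CP M t) (u : RA F (co β y₀)), Cf F P → (u : ℂ) = eval (co β y₀) P →
      ξ u = eval (co β y) P := fun P u hP e => by
    rw [hP.map_eval le_rfl ξ (fun x => ⟨co β y₀ x, gen_mem _ x⟩) u e, funext hξ]
  have hR : ∀ r : RA F (co β y₀), (r : ℂ) ∈ L := fun r =>
    RA_le (S := L.toSubring) (fun c hc => hL (le_FL F y₀ hc))
      (fun x => hL (rat_FL F y₀ (co_mem β y₀ x))) _ r.2
  have le : RA F (co β y₀) ≤ OH F y₀ y := Algebra.adjoin_le (by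
    rintro _ ⟨x, rfl⟩
    exact Algebra.subset_adjoin ⟨X x.1, X (β x.2), 1, isHomogeneous_X _ _, isHomogeneous_X _ _,
      cf_X _, cf_X _, by simpa using (hy x.2).2, by simp [co]⟩)
  have hO : ∀ x, x ∈ OH F y₀ y ↔ ∃ a b : RA F (co β y₀), ξ b ≠ 0 ∧ b * x = a := fun x => by
    refine ⟨fun hx => ?_, fun ⟨a, b, hb, e⟩ => ?_⟩
    · induction hx using Algebra.adjoin_induction with
      | mem u hu =>
        obtain ⟨A, B, d, hA, hB, cA, cB, B0, rfl⟩ := hu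
        have e1 : eval (co β y₀) (dh A) = eval y₀ A / _ := eval_dh hA β
        have e2 : eval (co β y₀) (dh B) = eval y₀ B / _ := eval_dh hB β
        have e3 : eval (co β y) (dh B) = eval y B / _ := eval_dh hB β
        have B1 : eval y₀ B ≠ 0 := fun e => B0 (hs B d hB cB e)
        have dA : Cf F (dh A : CP M t) := cA.rename _
        have dB : Cf F (dh B : CP M t) := cB.rename _
        refine ⟨⟨_, dA.eval_mem (co β y₀)⟩, ⟨_, dB.eval_mem (co β y₀)⟩, ?_, ?_⟩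
        · rw [xe (dh B) _ dB rfl, e3]
          exact div_ne_zero B0 (pow_ne_zero _ (hy none).2)
        · change eval _ (dh B) * _ = eval _ (dh A)
          rw [e1, e2, mul_comm, div_mul_div_cancel₀ B1]
      | algebraMap c => exact ⟨algebraMap F _ c, 1, by simp, by simp⟩
      | add u u' _ _ hu hu' =>
        obtain ⟨a, b, hb, e⟩ := hu
        obtain ⟨a', b', hb', e'⟩ := hu'
        refine ⟨a * b' + a' * b, b * b', by simp [hb, hb'], ?_⟩
        push_cast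
        rw [← e, ← e']
        ring
      | mul u u' _ _ hu hu' =>
        obtain ⟨a, b, hb, e⟩ := hu
        obtain ⟨a', b', hb', e'⟩ := hu'
        refine ⟨a * a', b * b', by simp [hb, hb'], ?_⟩
        push_cast
        rw [← e, ← e']
        ring
    · obtain ⟨P, hP, e1⟩ := mem_RA.1 b.2
      obtain ⟨H, B, d, a1, a2, a3, a4, a5⟩ := hh P hP
      rw [← inv_mul_cancel_left₀ (locA_ne hb) x, e]
      refine mul_mem (Algebra.subset_adjoin ⟨B, H, d, a2, a1, a4, a3, ?_, ?_⟩) (le a.2)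
      · rw [(a5 y hy).2, ← xe P b hP e1.symm]
        exact mul_ne_zero (a5 y hy).1 hb
      · rw [(a5 y₀ h0).2, e1, div_mul_cancel_left₀ (a5 y₀ h0).1]
  have hI := locA_int hR hO
  have hm : ∀ r ∈ RA F (co β y₀), r ∈ ICs (OH F y₀ y) L := fun r hr =>
    ⟨hR ⟨r, hr⟩, isIntegral_algebraMap (x := (⟨r, le hr⟩ : OH F y₀ y))⟩
  refine ⟨h0, ξ, hξ, hI, fun χ hχ ⟨r, hr⟩ => ?_, fun θ P b hP hb τ hτ => ?_⟩
  · induction hr using Algebra.adjoin_induction with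
    | mem u hu =>
      obtain ⟨x, rfl⟩ := hu
      exact (hχ.val _ _ (hy x.2).2).trans (hξ x).symm
    | algebraMap c => exact (hχ.cst c c.2).trans (ξ.commutes c).symm
    | add u u' a a' hu hu' =>
      exact (hχ.add u (hm u a) u' (hm u' a')).trans
        ((congrArg₂ (· + ·) hu hu').trans (map_add ξ ⟨u, a⟩ ⟨u', a'⟩).symm)
    | mul u u' a a' hu hu' =>
      exact (hχ.mul u (hm u a) u' (hm u' a')).trans
        ((congrArg₂ (· * ·) hu hu').trans (map_mul ξ ⟨u, a⟩ ⟨u', a'⟩).symm)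
  · obtain ⟨χ, c1, c2, c3, c4⟩ := locA_chi hI hP hb hτ
    refine ⟨χ, ⟨fun x a x' a' => (c2 x a x' a').1, fun x a x' a' => (c2 x a x' a').2, c1,
      fun c hc => ?_, fun c j hj => ?_⟩, c3⟩
    · have := c4 c (hm c (Subalgebra.algebraMap_mem _ (⟨c, hc⟩ : F)))
        (algebraMap F _ ⟨c, hc⟩) 1 (by simp) (one_mul c)
      rwa [map_one, one_mul, ξ.commutes] at this
    · have n1 : co β y (j, none) ≠ 0 := div_ne_zero hj (hy none).2
      have n2 := (hξ (j, none)).symm ▸ n1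
      have e : co β y₀ (j, none) * (y₀ c / y₀ j) = co β y₀ (c, none) := by
        rw [div_eq_co h0, mul_div_cancel₀ _ (locA_ne n2)]
      have m1 : co β y₀ (c, none) ∈ ICs (RA F (co β y₀)) L := ⟨hR ⟨_, gen_mem _ _⟩,
        isIntegral_algebraMap (x := (⟨_, gen_mem _ (c, none)⟩ : RA F (co β y₀)))⟩
      have := c4 _ ((hI _).2 ⟨_, n2, e.symm ▸ m1⟩) ⟨_, gen_mem _ (c, none)⟩ _ n2 e
      rw [hξ, hξ] at this
      rw [div_eq_co hy, eq_div_iff n1, mul_comm, this]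

end Pool.Agent.MP_c69980_ag.H43
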